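import Mathlib

namespace Pool.Agent.Results.MP_542d22_co.Counterexample

/-- A digraph with vertex set `V` and edge set `E`: each edge has a tail and a head, which are
different (no loops); parallel edges are allowed. -/
structure DiG (V E : Type) where
  tail : E → V
  head : E → V
  ne : ∀ e, tail e ≠ head e

variable {V E : Type}

/-- `l` is the list of edges of a directed walk from `x` to `y`. -/
def IsWalk (D : DiG V E) : V → V → List E → Prop
  | x, y, [] => x = y
  | x, y, e :: l => D.tail e = x ∧ IsWalk D (D.head e) y l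

/-- `l` is the list of edges of a directed path (no repeated vertex) from `x` to `y`. -/
def IsPath (D : DiG V E) (x y : V) (l : List E) : Prop :=
  IsWalk D x y l ∧ (x :: l.map D.head).Nodup

/-- there are `k` pairwise edge-disjoint directed paths from `x` to `y` -/
def HasDisjointPaths (D : DiG V E) (x y : V) (k : ℕ) : Prop :=
  ∃ p : Fin k → List E, (∀ i, IsPath D x y (p i)) ∧ ∀ i j, i ≠ j → List.Disjoint (p i) (p j)

/-- `λ(x,y)`: the largest number of pairwise edge-disjoint directed paths from `x` to `y`. -/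
noncomputable def lam (D : DiG V E) (x y : V) : ℕ := sSup {k | HasDisjointPaths D x y k}

/-- the out-degree of `v`: the number of edges having `v` as tail -/
noncomputable def outDeg (D : DiG V E) (v : V) : ℕ := Nat.card {e : E // D.tail e = v}

theorem crossing (D : DiG V E) (Z : V → Prop) (y : V) (hy : ¬ Z y) :
    ∀ (l : List E) (x : V), Z x → IsWalk D x y l → ∃ e ∈ l, Z (D.tail e) ∧ ¬ Z (D.head e) := by
  intro l
  induction l with
  | nil => intro x hx h; exact absurd (h ▸ hx) hy
  | cons e l ih =>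
    intro x hx h
    obtain ⟨h1, h2⟩ := h
    by_cases hz : Z (D.head e)
    · obtain ⟨e', he', h'⟩ := ih _ hz h2
      exact ⟨e', List.mem_cons_of_mem _ he', h'⟩
    · exact ⟨e, List.mem_cons_self, by rw [h1]; exact hx, hz⟩

theorem lam_le (D : DiG V E) (Z : V → Prop) (x y : V) (hx : Z x) (hy : ¬ Z y) (C : Finset E)
    (hC : ∀ e, Z (D.tail e) → ¬ Z (D.head e) → e ∈ C) : lam D x y ≤ C.card := by
  have hne : {k | HasDisjointPaths D x y k}.Nonempty :=
    ⟨0, fun i => i.elim0, fun i => i.elim0, fun i => i.elim0⟩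
  apply csSup_le hne
  rintro k ⟨p, hp, hd⟩
  choose f hf hf' using fun i => crossing D Z y hy (p i) x hx (hp i).1
  have hinj : Function.Injective f := by
    intro i j hij
    by_contra hne
    exact hd i j hne (hf i) (hij ▸ hf j)
  have := Finset.card_le_card_of_injOn (s := (Finset.univ : Finset (Fin k))) (t := C) f
    (fun i _ => hC _ (hf' i).1 (hf' i).2) hinj.injOn
  simpa using this

/-- the 24 edges `(tail, head)` -/
def edges : Fin 24 → Fin 6 × Fin 6 :=
  ![(0,1), (0,2), (0,2), (0,2),
    (1,0), (1,3), (1,3), (1,3),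
    (2,0), (2,0), (2,0), (2,4),
    (3,0), (3,0), (3,1), (3,1),
    (4,2), (4,5), (4,5), (4,5),
    (5,2), (5,2), (5,4), (5,4)]

def D6 : DiG (Fin 6) (Fin 24) where
  tail e := (edges e).1
  head e := (edges e).2
  ne := by decide

def cutSets : List (Finset (Fin 6)) :=
  [{0, 2}, {0, 1, 3}, {1, 3}, {2, 4, 5}, {4, 5}, {0, 1, 2, 3, 4}, {0, 1, 2, 4, 5},
    {0, 2, 3, 4, 5}, {0, 1, 2, 3, 5}]

theorem cuts_small : ∀ Z ∈ cutSets,
    (Finset.univ.filter fun e : Fin 24 => (edges e).1 ∈ Z ∧ (edges e).2 ∉ Z).card ≤ 3 := by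
  decide

theorem cuts_sep : ∀ x y : Fin 6, x ≠ y → ∃ Z ∈ cutSets, x ∈ Z ∧ y ∉ Z := by
  decide

/-- For `r = 4` there is a digraph with all out-degrees (at least) `r` in which
`λ(x,y) ≤ r - 1` for all distinct `x, y`, in particular for the ends of every edge. -/
theorem result : ∃ (V E : Type) (_ : Fintype V) (_ : Fintype E) (D : DiG V E),
    Nonempty E ∧ (∀ v, 4 ≤ outDeg D v) ∧ (∀ x y, x ≠ y → lam D x y ≤ 4 - 1) ∧
      ∀ e, lam D (D.tail e) (D.head e) ≤ 4 - 1 := by
  have h1 : ∀ x y : Fin 6, x ≠ y → lam D6 x y ≤ 4 - 1 := by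
    intro x y hxy
    obtain ⟨Z, hZ, hx, hy⟩ := cuts_sep x y hxy
    refine (lam_le D6 (fun v => v ∈ Z) x y hx hy
      (Finset.univ.filter fun e : Fin 24 => (edges e).1 ∈ Z ∧ (edges e).2 ∉ Z) ?_).trans
      (cuts_small Z hZ)
    intro e he he'
    exact Finset.mem_filter.mpr ⟨Finset.mem_univ _, he, he'⟩
  refine ⟨Fin 6, Fin 24, inferInstance, inferInstance, D6, ⟨0⟩, ?_, h1, fun e => h1 _ _ (D6.ne e)⟩
  intro v
  have : outDeg D6 v = Fintype.card {e : Fin 24 // (edges e).1 = v} := by
    unfold outDeg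
    rw [Nat.card_eq_fintype_card]
    rfl
  rw [this]
  clear this
  revert v
  decide

end Pool.Agent.Results.MP_542d22_co.Counterexample
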